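import Pool.Agent.X217.ALine

/-!
# A dense Aronszajn line on which Player II wins for every payoff set (MP_8fd369_lc)

The line is the set of the leaves of a coherent Aronszajn tree of finite-to-one functions, in the
lexicographic order (`Pool.Agent.TH778.SA.LL`).
-/

set_option autoImplicit false

namespace Pool.Agent.Results.MP_8fd369_lc.AllPayoff

open Set

/-- The well-ordered set of type `ω₁`. -/
abbrev Om : Type := (Cardinal.aleph 1).ord.ToType

/-- Aronszajn lines: uncountable linear orders without strictly increasing or strictly decreasing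
sequences of length `ω₁` in which every suborder isomorphic to a set of reals is countable. -/
def IsAronszajnLine (A : Type) [LinearOrder A] : Prop :=
  Uncountable A ∧ (¬ ∃ f : Om → A, StrictMono f) ∧ (¬ ∃ f : Om → A, StrictAnti f) ∧
    ∀ S : Set A, (∃ f : S → ℝ, StrictMono f) → S.Countable

/-- The `n`-th move of Player II when Player I plays `a 0, a 1, ...` and Player II follows the
strategy `σ`, which gives Player II's answer to each finite sequence of moves of Player I. -/
def reply {X : Type} (σ : List X → X) (a : ℕ → X) (n : ℕ) : X := σ ((List.range (n + 1)).map a)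

/-- Player II has a winning strategy in the game `BG(X, S)`: as long as the moves `a 0, ..., a n` of
Player I are legal the answers `b 0, ..., b n` are legal, and if all moves of Player I are legal
then no element of `S` is in all the intervals `(a n, b n)`. -/
def IIWins (X : Type) [LinearOrder X] (S : Set X) : Prop :=
  ∃ σ : List X → X, ∀ a : ℕ → X,
    (∀ n, (∀ k < n, a k < a (k + 1) ∧ a (k + 1) < reply σ a k) →
      a n < reply σ a n ∧ ∀ k < n, reply σ a n < reply σ a k) ∧
    ((∀ k, a k < a (k + 1) ∧ a (k + 1) < reply σ a k) →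
      ¬ ∃ x ∈ S, ∀ n, a n < x ∧ x < reply σ a n)

/-- A strategy from a rule that only looks at the turn, the last own move and the last move of the
opponent. -/
theorem exists_strategy {X : Type} [Inhabited X] (move : ℕ → Option X → X → X) :
    ∃ σ : List X → X, ∀ a, reply σ a 0 = move 0 none (a 0) ∧
      ∀ n, reply σ a (n + 1) = move (n + 1) (some (reply σ a n)) (a (n + 1)) := by
  let step : ℕ × Option X → X → ℕ × Option X := fun s x => (s.1 + 1, some (move s.1 s.2 x))
  let st : List X → ℕ × Option X := fun l => l.foldl step (0, none)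
  refine ⟨fun l => (st l).2.getD default, fun a => ?_⟩
  have h1 : ∀ n, st ((List.range (n + 1)).map a) = step (st ((List.range n).map a)) (a n) := by
    intro n
    show List.foldl step (0, none) _ = _
    rw [List.range_succ, List.map_append, List.foldl_append]
    rfl
  have h2 : ∀ n, (st ((List.range n).map a)).1 = n := by
    intro n
    induction n with
    | zero => rfl
    | succ n ih => rw [h1]; show _ + 1 = _; rw [ih]
  have h3 : ∀ n, (st ((List.range (n + 1)).map a)).2 =
      some (move n (st ((List.range n).map a)).2 (a n)) := by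
    intro n
    rw [h1]
    show some (move (st ((List.range n).map a)).1 _ _) = _
    rw [h2]
  refine ⟨?_, fun n => ?_⟩
  · show (st ((List.range (0 + 1)).map a)).2.getD default = _
    rw [h3 0]
    rfl
  · show (st ((List.range (n + 1 + 1)).map a)).2.getD default = _
    rw [h3 (n + 1)]
    show move (n + 1) (st ((List.range (n + 1)).map a)).2 (a (n + 1)) = _
    have h4 : (st ((List.range (n + 1)).map a)).2 =
        some (reply (fun l => (st l).2.getD default) a n) := by
      rw [h3 n]
      show _ = some ((st ((List.range (n + 1)).map a)).2.getD default)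
      rw [h3 n]
      rfl
    rw [h4]

open Pool.Agent.Helper330.DPK.Coh Pool.Agent.TH778.SA

theorem finite_gap (r : ℝ) (D : Finset ℝ) : ∃ u, r < u ∧ ∀ d ∈ D, r < d → u ≤ d := by
  classical
  induction D using Finset.induction_on with
  | empty => exact ⟨r + 1, by linarith, by simp⟩
  | insert d D _ ih =>
    obtain ⟨u, hu, h⟩ := ih
    by_cases hd : r < d
    · refine ⟨min u d, lt_min hu hd, fun e he hre => ?_⟩
      rcases Finset.mem_insert.1 he with rfl | he
      · exact min_le_right _ _
      · exact (min_le_left _ _).trans (h e he hre)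
    · refine ⟨u, hu, fun e he hre => ?_⟩
      rcases Finset.mem_insert.1 he with rfl | he
      · exact absurd hre hd
      · exact h e he hre

/-- The property of the answer `c` of Player II at turn `n` to the move `a`, where `ob` is the last
move of Player II (if any). -/
def Ans (d : ℕ → ℝ) (n : ℕ) (ob : Option LL) (a c : LL) : Prop :=
  a < c ∧ (∀ b, ob = some b → c < b) ∧ Agree (ht a) a.1 c.1 ∧
    (∀ m : ℕ, ¬ (a.1 (ht a) < m ∧ (m : ℝ) ≤ c.1 (ht a))) ∧
    ∀ i ≤ n, ¬ (a.1 (ht a) < d i ∧ d i ≤ c.1 (ht a))

theorem exists_ans (d : ℕ → ℝ) (n : ℕ) (ob : Option LL) (a : LL)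
    (h : ∀ b, ob = some b → a < b) : ∃ c, Ans d n ob a c := by
  classical
  set α := ht a with hα
  set r : ℝ := a.1 α with hr
  obtain ⟨u, hu1, hu2⟩ := finite_gap r ((Finset.range (n + 1)).image d)
  -- a bound coming from the last move
  obtain ⟨t, ht1, ht2⟩ : ∃ t : ℝ, r < t ∧ ∀ b, ob = some b → dl a.1 b.1 = α → t ≤ b.1 α := by
    cases ob with
    | none => exact ⟨r + 1, by linarith, fun b hb => by simp at hb⟩
    | some b =>
      by_cases hd : dl a.1 b.1 = α
      · refine ⟨b.1 α, ?_, fun b' hb' _ => ?_⟩
        · have hab : a < b := h b rfl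
          have hne : a.1 ≠ b.1 := fun h' => hab.ne (Subtype.ext h')
          have h1 := (lt_iff_dl hne).1 hab
          rwa [hd] at h1
        · have : b = b' := Option.some.inj hb'
          rw [this]
      · exact ⟨r + 1, by linarith, fun b' hb' h' => by
          have : b = b' := Option.some.inj hb'
          rw [← this] at h'
          exact absurd h' hd⟩
  have hfl : r < (⌊r⌋ : ℝ) + 1 := Int.lt_floor_add_one r
  obtain ⟨v, hv1, hv2⟩ := exists_rat_btwn (lt_min hu1 (lt_min ht1 hfl))
  obtain ⟨γ, hγ⟩ := exists_gt α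
  obtain ⟨c, -, hc2, hc3⟩ := exists_leaf a (β := α) (le_refl _) hγ v
  have hvu : (v : ℝ) < u := lt_of_lt_of_le hv2 (min_le_left _ _)
  have hvt : (v : ℝ) < t := lt_of_lt_of_le hv2 ((min_le_right _ _).trans (min_le_left _ _))
  have hvf : (v : ℝ) < ⌊r⌋ + 1 := lt_of_lt_of_le hv2 ((min_le_right _ _).trans (min_le_right _ _))
  have hac : a.1 < c.1 := lt_iff.2 ⟨α, fun η hη => hc2 η hη, by rw [hc3]; exact hv1⟩
  refine ⟨c, hac, ?_, hc2, ?_, ?_⟩
  · intro b hb
    have hab : a < b := h b hb
    have hab' : a ≠ b := hab.ne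
    have hne : a.1 ≠ b.1 := fun h' => hab.ne (Subtype.ext h')
    rcases (dl_le hab').eq_or_lt with h1 | h1
    · have h2 := ht2 b hb h1
      show c.1 < b.1
      refine lt_iff.2 ⟨α, fun η hη => ?_, ?_⟩
      · rw [← hc2 η hη]
        exact agree_dl hne η (by rw [h1]; exact hη)
      · rw [hc3]
        exact lt_of_lt_of_le hvt h2
    · exact lt_of_agree' (δ := α) hab h1 hc2
  · rintro m ⟨h1, h2⟩
    rw [← hα, hc3] at h2
    rw [← hα] at h1
    have h3 : (m : ℝ) < ⌊r⌋ + 1 := lt_of_le_of_lt h2 hvf
    have h4 : (m : ℤ) < ⌊r⌋ + 1 := by exact_mod_cast h3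
    have h5 : (m : ℤ) ≤ ⌊r⌋ := by omega
    have h6 : ((m : ℤ) : ℝ) ≤ r := Int.le_floor.1 h5
    have h7 : ((m : ℤ) : ℝ) = (m : ℝ) := by norm_cast
    rw [h7] at h6
    exact absurd h1 (not_lt.2 h6)
  · rintro i hi ⟨h1, h2⟩
    rw [← hα, hc3] at h2
    rw [← hα] at h1
    have h3 := hu2 (d i) (Finset.mem_image_of_mem _ (Finset.mem_range.2 (by omega))) h1
    linarith

theorem main (S : Set LL) : IIWins LL S := by
  classical
  -- an enumeration of the possible labels
  let D : Set ℝ := range (fun q : ℚ => (q : ℝ)) ∪ range (fun q : ℚ => (q : ℝ) + √2)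
  have hDc : D.Countable := (countable_range _).union (countable_range _)
  obtain ⟨d, hd⟩ := hDc.exists_eq_range ⟨(0 : ℚ), Or.inl ⟨0, rfl⟩⟩
  obtain ⟨x0, -⟩ := Pool.Agent.X217.ALine.exists_of_ht (Classical.arbitrary W)
  let _ : Inhabited LL := ⟨x0⟩
  let move : ℕ → Option LL → LL → LL := fun n ob a =>
    if h : ∀ b, ob = some b → a < b then (exists_ans d n ob a h).choose else a
  have hmove : ∀ n ob a, (∀ b, ob = some b → a < b) → Ans d n ob a (move n ob a) := by
    intro n ob a h
    have : move n ob a = (exists_ans d n ob a h).choose := dif_pos h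
    rw [this]
    exact (exists_ans d n ob a h).choose_spec
  obtain ⟨σ, hσ⟩ := exists_strategy move
  refine ⟨σ, fun a => ?_⟩
  -- the property of the answers
  have hans : ∀ n, (∀ k < n, a k < a (k + 1) ∧ a (k + 1) < reply σ a k) →
      ∃ ob, Ans d n ob (a n) (reply σ a n) ∧ ∀ k, n = k + 1 → ob = some (reply σ a k) := by
    intro n hn
    cases n with
    | zero =>
      refine ⟨none, ?_, fun k hk => absurd hk (Nat.succ_ne_zero k).symm⟩
      rw [(hσ a).1]
      exact hmove 0 none (a 0) (fun b hb => by simp at hb)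
    | succ n =>
      refine ⟨some (reply σ a n), ?_, fun k hk => ?_⟩
      · rw [(hσ a).2 n]
        refine hmove _ _ _ fun b hb => ?_
        have : reply σ a n = b := Option.some.inj hb
        rw [← this]
        exact (hn n (Nat.lt_succ_self n)).2
      · have : n = k := Nat.succ.inj hk
        rw [this]
  constructor
  · intro n hn
    refine ⟨?_, ?_⟩
    · obtain ⟨ob, hob, -⟩ := hans n hn
      exact hob.1
    · -- the answers decrease
      induction n with
      | zero => intro k hk; exact absurd hk (Nat.not_lt_zero k)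
      | succ n ih =>
        obtain ⟨ob, hob, hob2⟩ := hans (n + 1) hn
        have h1 : reply σ a (n + 1) < reply σ a n := hob.2.1 _ (hob2 n rfl)
        intro k hk
        rcases Nat.lt_succ_iff_lt_or_eq.1 hk with h | h
        · exact h1.trans (ih (fun k hk => hn k (Nat.lt_succ_of_lt hk)) k h)
        · rw [h]; exact h1
  · rintro hall ⟨x, -, hx⟩
    have hA : ∀ n, ∃ ob, Ans d n ob (a n) (reply σ a n) := fun n => by
      obtain ⟨ob, h, -⟩ := hans n fun k _ => hall k
      exact ⟨ob, h⟩
    -- `x` agrees with `a n` below the height of `a n`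
    have hag : ∀ n, Agree (ht (a n)) (a n).1 x.1 := by
      intro n
      obtain ⟨ob, -, -, h3, -⟩ := hA n
      exact agree_of_between (x := (a n).1) (y := x.1) (z := (reply σ a n).1)
        (hx n).1.le (hx n).2.le h3
    have hle : ∀ n, ht (a n) ≤ ht x := fun n => ht_le_of_agree (hag n) (le_refl _)
    have hgt : ∀ n, (a n).1 (ht (a n)) < x.1 (ht (a n)) := by
      intro n
      have hne : a n ≠ x := (hx n).1.ne
      have hne' : (a n).1 ≠ x.1 := fun h => hne (Subtype.ext h)
      have h1 : dl (a n).1 x.1 = ht (a n) :=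
        le_antisymm (dl_le hne) ((agree_iff hne').1 (hag n))
      have h2 := (lt_iff_dl hne').1 (hx n).1
      rwa [h1] at h2
    have hlt : ∀ n, x.1 (ht (a n)) ≤ (reply σ a n).1 (ht (a n)) := by
      intro n
      obtain ⟨ob, -, -, h3, -⟩ := hA n
      by_contra hcon
      push Not at hcon
      have h4 : (reply σ a n).1 < x.1 := lt_iff.2 ⟨ht (a n), fun η hη => by
        rw [← h3 η hη, ← hag n η hη], hcon⟩
      exact lt_asymm (a := (reply σ a n).1) (b := x.1) h4 (hx n).2
    have hnat : ∀ n (m : ℕ), x.1 (ht (a n)) ≠ m := by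
      intro n m h
      obtain ⟨ob, -, -, -, h4, -⟩ := hA n
      exact h4 m ⟨by rw [← h]; exact hgt n, by rw [← h]; exact hlt n⟩
    have hlab : ∀ n i, i ≤ n → x.1 (ht (a n)) ≠ d i := by
      intro n i hi h
      obtain ⟨ob, -, -, -, -, h5⟩ := hA n
      exact h5 i hi ⟨by rw [← h]; exact hgt n, by rw [← h]; exact hlt n⟩
    -- every label belongs to `D`
    have hD : ∀ n, ∃ i, x.1 (ht (a n)) = d i := by
      intro n
      have : x.1 (ht (a n)) ∈ D := by
        rcases (hle n).eq_or_lt with h | h
        · rw [h]
          obtain ⟨q, hq⟩ := (leaf x).top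
          exact Or.inr ⟨q, hq.symm⟩
        · obtain ⟨q, hq⟩ := (leaf x).low _ h
          exact Or.inl ⟨q, hq.symm⟩
      rw [hd] at this
      obtain ⟨i, hi⟩ := this
      exact ⟨i, hi.symm⟩
    -- the heights take infinitely many values
    have hinf : (range fun n => ht (a n)).Infinite := by
      intro hfin
      have : Finite (range fun n => ht (a n)) := hfin
      obtain ⟨⟨β, n0, hn0⟩, hβ⟩ := Finite.exists_infinite_fiber
        (fun n => (⟨ht (a n), n, rfl⟩ : range fun n => ht (a n)))
      have hn0' : ht (a n0) = β := hn0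
      obtain ⟨i, hi⟩ := hD n0
      rw [hn0'] at hi
      have hβ' : ((fun n => (⟨ht (a n), n, rfl⟩ : range fun n => ht (a n))) ⁻¹'
          {⟨β, n0, hn0⟩}).Infinite := Set.infinite_coe_iff.1 hβ
      obtain ⟨n, hn, hin⟩ := hβ'.exists_gt i
      have hn' : ht (a n) = β := congrArg Subtype.val hn
      exact hlab n i hin.le (by rw [hn', hi])
    -- contradiction with finiteness of the difference to the coherent sequence
    have hinf2 : ((range fun n => ht (a n)) \ {ht x}).Infinite :=
      hinf.sdiff (Set.finite_singleton _)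
    refine hinf2 ((leaf x).fin.subset ?_)
    rintro _ ⟨⟨n, rfl⟩, hne⟩
    refine ⟨lt_of_le_of_ne (hle n) hne, ?_⟩
    exact hnat n _

/-- There is a dense Aronszajn line `A` such that Player II has a winning strategy in `BG(A, S)` for
every `S ⊆ A`. -/
theorem result : ∃ (A : Type) (_ : LinearOrder A), IsAronszajnLine A ∧ DenselyOrdered A ∧
    ∀ S : Set A, IIWins A S := by
  refine ⟨LL, inferInstance, ⟨Pool.Agent.X217.ALine.uncountable_LL, ?_, ?_, ?_⟩, ⟨?_⟩, main⟩
  · rintro ⟨f, hf⟩
    exact Pool.Agent.X217.ALine.no_seq true f fun α β h => hf h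
  · rintro ⟨f, hf⟩
    exact Pool.Agent.X217.ALine.no_seq false f fun α β h => hf h
  · exact fun S hS => Pool.Agent.X217.ALine.no_real S hS
  · intro x y hxy
    obtain ⟨c, hc1, hc2, -⟩ := exists_ans (fun _ => 0) 0 (some y) x fun b hb => by
      have : y = b := Option.some.inj hb
      rw [← this]; exact hxy
    exact ⟨c, hc1, hc2 y rfl⟩

end Pool.Agent.Results.MP_8fd369_lc.AllPayoff
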